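import Mathlib
import Pool.Agent.H21.HP.UnitG
import Pool.Agent.H21.HP.CritG
import Pool.Agent.H21.HP.Beurl

/-!
# Which weakly amenable commutative Banach algebras have the homomorphism property

* Not all of them have it: for every function `h` tending to infinity there is a weight `w` on the
  integers with `w(n) ≤ |n| ^ h(|n|)` for large `|n|`, such that the Beurling algebra `ℓ¹(ℤ, w)` is
  weakly amenable and semisimple, but does not have the homomorphism property.
* The growth in this statement is optimal: every weakly amenable commutative Banach algebra which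
  is generated by a group of invertible elements of polynomial growth has the homomorphism
  property.
* The algebras with the homomorphism property are characterised by their bounded bilinear forms.
-/

open Filter Topology

namespace Pool.Agent.Results.MP_7549e3_an.CriterionAndThreshold

open Pool.Agent.H52 Pool.Agent.H21.HP

section defs

variable {A : Type} [NonUnitalNormedCommRing A] [NormedSpace ℂ A]

/-- The value `D(a)(x)` for a bounded linear map `D : A → A*`, that is, the value at `(a, x)` of the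
corresponding bounded bilinear form on `A`. -/
noncomputable def val (D : A →L[ℂ] (A →L[ℂ] ℂ)) (a x : A) : ℂ := D a x

/-- The bounded linear map `D : A → A*` is a derivation: `D(ab) = a·D(b) + D(a)·b`, with the dual
module actions `(a·f)(x) = f(xa)` and `(f·a)(x) = f(ax)`. -/
def IsDerivation (D : A →L[ℂ] (A →L[ℂ] ℂ)) : Prop :=
  ∀ a b x : A, val D (a * b) x = val D b (x * a) + val D a (b * x)

/-- `D` is inner: `D(a) = a·f - f·a` for some `f` in the dual of `A`. -/
def IsInner (D : A →L[ℂ] (A →L[ℂ] ℂ)) : Prop :=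
  ∃ f : A →L[ℂ] ℂ, ∀ a x : A, val D a x = f (x * a) - f (a * x)

end defs

/-- `A` is weakly amenable: every bounded derivation `A → A*` is inner. -/
def WeaklyAmenable (A : Type) [NonUnitalNormedCommRing A] [NormedSpace ℂ A] : Prop :=
  ∀ D : A →L[ℂ] (A →L[ℂ] ℂ), IsDerivation D → IsInner D

/-- `b` belongs to the Jacobson radical of the commutative ring `B` (with or without unit): all
multiples `c b` are quasi-regular. -/
def InRadical {B : Type} [NonUnitalNormedCommRing B] (b : B) : Prop :=
  ∀ c : B, IsQuasiregular (c * b)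

/-- The homomorphism property of a commutative Banach algebra `A`: if `B` is a commutative Banach
algebra (with or without unit) and `φ, ψ : A → B` are continuous algebra homomorphisms such that
`φ - ψ` maps `A` into the radical of `B`, then `φ = ψ`. -/
def HomomorphismProperty (A : Type) [NonUnitalNormedCommRing A] [NormedSpace ℂ A] : Prop :=
  ∀ (B : Type) [NonUnitalNormedCommRing B] [NormedSpace ℂ B] [IsScalarTower ℂ B B]
    [SMulCommClass ℂ B B] [CompleteSpace B] (φ ψ : A →ₙₐ[ℂ] B),
    Continuous φ → Continuous ψ → (∀ a : A, InRadical (φ a - ψ a)) → φ = ψ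

/-- The homomorphism property of a unital commutative Banach algebra `A`, tested on unital
commutative Banach algebras `B` and continuous unital homomorphisms only. -/
def UnitalHomomorphismProperty (A : Type) [NormedCommRing A] [NormedAlgebra ℂ A] : Prop :=
  ∀ (B : Type) [NormedCommRing B] [NormedAlgebra ℂ B] [CompleteSpace B] (φ ψ : A →ₐ[ℂ] B),
    Continuous φ → Continuous ψ → (∀ a : A, φ a - ψ a ∈ Ring.jacobson B) → φ = ψ

/-- `A` is the Beurling algebra `ℓ¹(ℤ, w)` and `s` is its canonical generator: the powers of `s`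
span a dense subspace, and the norm of `∑ c_n s ^ n` is `∑ |c_n| w(n)`. -/
def IsBeurlingAlgebra {A : Type} [NormedCommRing A] [NormedAlgebra ℂ A] (s : Aˣ) (w : ℤ → ℝ) :
    Prop :=
  (∀ c : ℤ →₀ ℂ, ‖∑ n ∈ c.support, c n • ((s ^ n : Aˣ) : A)‖ = ∑ n ∈ c.support, ‖c n‖ * w n) ∧
    Dense (Submodule.span ℂ (Set.range fun n : ℤ => ((s ^ n : Aˣ) : A)) : Set A)

/-- `A` is topologically generated by a group of invertible elements of uniformly polynomial
growth: the linear span of the group is dense, and there is an exponent `k` such that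
`‖g ^ n‖ = O(n ^ k)` for every `g` in the group. -/
def PolynomialGrowth (A : Type) [NormedCommRing A] [NormedAlgebra ℂ A] : Prop :=
  ∃ (G : Subgroup Aˣ) (k : ℕ),
    Dense (Submodule.span ℂ ((fun g : Aˣ => (g : A)) '' (G : Set Aˣ)) : Set A) ∧
    ∀ g ∈ G, ∃ C : ℝ, ∀ n : ℕ, ‖(g : A) ^ n‖ ≤ C * ((n : ℝ) + 1) ^ k

/-- `U` arises from `A` by adjoining a unit, if necessary: `ι : A → U` is an isometric
homomorphism and `U = ℂ 1 + ι(A)`. This holds for the unitization of `A` with its usual norm, and,
if `A` is unital, for the identity map of `A`. -/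
def AdjoinsUnit {A U : Type} [NonUnitalNormedCommRing A] [NormedSpace ℂ A] [NormedCommRing U]
    [NormedAlgebra ℂ U] (ι : A →ₙₐ[ℂ] U) : Prop :=
  (∀ a : A, ‖ι a‖ = ‖a‖) ∧ ∀ u : U, ∃ (c : ℂ) (a : A), u = c • (1 : U) + ι a

section forms

variable {A : Type} [NormedCommRing A] [NormedAlgebra ℂ A]

/-- The form `T_a F`, with `(T_a F)(x, y) = F(a x, y) - F(x, a y)`. -/
def defect (a : A) (F : A → A → ℂ) : A → A → ℂ := fun x y => F (a * x) y - F x (a * y)

/-- The bounded bilinear form `L` on `A` is balanced: `T_a L = 0` for all `a`. -/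
def Balanced (L : A →L[ℂ] (A →L[ℂ] ℂ)) : Prop := ∀ a x y : A, defect a (val L) x y = 0

/-- Every `T_a` is quasi-nilpotent at `L`: the `k`-th root of the norm of the bilinear form
`T_a ^ k L` tends to zero, for every `a`. -/
def QuasiNilpotentAt (L : A →L[ℂ] (A →L[ℂ] ℂ)) : Prop :=
  ∀ a : A, ∀ ε : ℝ, 0 < ε → ∃ C : ℝ, ∀ (k : ℕ) (x y : A),
    ‖(defect a)^[k] (val L) x y‖ ≤ C * ε ^ k * (‖x‖ * ‖y‖)

/-- The `T_a` are jointly quasi-nilpotent at `L`: there is a submultiplicative function `ρ` on the
finite multisets of elements of `A`, such that the norm of the form `T_{a_1} ⋯ T_{a_n} L` is at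
most a constant times `ρ {a_1, …, a_n}`, and the `k`-th root of `ρ {a, …, a}` (with `k` entries)
tends to zero, for every `a`. -/
def JointlyQuasiNilpotentAt (L : A →L[ℂ] (A →L[ℂ] ℂ)) : Prop :=
  ∃ (C : ℝ) (ρ : Multiset A → ℝ), (∀ μ, 0 ≤ ρ μ) ∧ (∀ μ ν, ρ (μ + ν) ≤ ρ μ * ρ ν) ∧
    (∀ a : A, ∀ ε : ℝ, 0 < ε → ∃ C' : ℝ, ∀ k : ℕ, ρ (k • {a}) ≤ C' * ε ^ k) ∧
    ∀ (s : List A) (x y : A), ‖s.foldr defect (val L) x y‖ ≤
      C * ρ (s : Multiset A) * (‖x‖ * ‖y‖)

end forms

/-- Derivations into the dual of a weakly amenable commutative algebra vanish. -/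
lemma derivation_zero {A : Type} [NonUnitalNormedCommRing A] [NormedSpace ℂ A]
    (h : WeaklyAmenable A) (D : A →L[ℂ] (A →L[ℂ] ℂ))
    (hD : ∀ a b x : A, D (a * b) x = D b (x * a) + D a (b * x)) : ∀ a x, D a x = 0 := by
  intro a x
  obtain ⟨f, hf⟩ := h D hD
  have h1 := hf a x
  rw [mul_comm x a, sub_self] at h1
  exact h1

lemma inRadical_of_mem {B : Type} [NormedCommRing B] {b : B} (h : b ∈ Ring.jacobson B) :
    InRadical b := by
  intro c
  rw [isQuasiregular_iff_isUnit]
  rw [← Ideal.jacobson_bot, Ideal.mem_jacobson_bot] at h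
  have h1 := h c
  rwa [add_comm, mul_comm b c] at h1

/-- the homomorphism property, applied to unital algebras and homomorphisms -/
lemma unital_of_hp {A : Type} [NormedCommRing A] [NormedAlgebra ℂ A]
    (h : HomomorphismProperty A) : UnitalHomomorphismProperty A := by
  intro B _ _ _ φ ψ hφ hψ hd
  have h1 := h B (φ : A →ₙₐ[ℂ] B) (ψ : A →ₙₐ[ℂ] B) hφ hψ (fun a => inRadical_of_mem (hd a))
  apply AlgHom.ext
  intro a
  exact congrArg (fun F : A →ₙₐ[ℂ] B => F a) h1

/-- (1) Counterexamples below every superpolynomial growth rate; (2) the homomorphism property for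
weakly amenable algebras, unital or not, generated by a group of polynomial growth, and reduction of
the non unital case to the unital one; (3) the characterisation of the unital algebras with the
homomorphism property by bilinear forms, and its simpler form for separable algebras. -/
theorem result :
    (∀ h : ℕ → ℝ, Tendsto h atTop atTop →
      ∃ (A : Type) (_ : NormedCommRing A) (_ : NormedAlgebra ℂ A) (_ : CompleteSpace A)
        (s : Aˣ) (w : ℤ → ℝ), IsBeurlingAlgebra s w ∧
        (∀ᶠ m : ℕ in atTop, ∀ n : ℤ, n.natAbs = m → w n ≤ (m : ℝ) ^ (h m)) ∧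
        Ring.jacobson A = ⊥ ∧ WeaklyAmenable A ∧ ¬ HomomorphismProperty A ∧
        ¬ UnitalHomomorphismProperty A) ∧
    (∀ (A U : Type) [NonUnitalNormedCommRing A] [NormedSpace ℂ A] [CompleteSpace A]
      [NormedCommRing U] [NormedAlgebra ℂ U] [CompleteSpace U] (ι : A →ₙₐ[ℂ] U),
      AdjoinsUnit ι →
        (PolynomialGrowth U → WeaklyAmenable A → HomomorphismProperty A) ∧
        (HomomorphismProperty A ↔ HomomorphismProperty U)) ∧
    (∀ (A : Type) [NormedCommRing A] [NormedAlgebra ℂ A] [CompleteSpace A],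
      (HomomorphismProperty A ↔
        ∀ L : A →L[ℂ] (A →L[ℂ] ℂ), JointlyQuasiNilpotentAt L → Balanced L) ∧
      (TopologicalSpace.SeparableSpace A → (HomomorphismProperty A ↔
        ∀ L : A →L[ℂ] (A →L[ℂ] ℂ), QuasiNilpotentAt L → Balanced L))) := by
  refine ⟨?_, ?_, ?_⟩
  · intro h hh
    obtain ⟨v, hv, hvh⟩ := exists_slow h hh
    obtain ⟨w, Ψ, κ, h1, h2, h3, h4, h5, h6, h7, h8⟩ := exists_weight_le v hv
    let W : Conc.Wg := ⟨w, h1, h2, h3⟩
    have hU : ¬ UnitalHomomorphismProperty (Conc.datA W).Comp := by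
      intro hU
      exact Conc.phi_ne_psi W h5 h6 h7 (hU (Conc.datB W).Comp (Conc.phi W) (Conc.psi W)
        (Conc.continuous_phi W) (Conc.continuous_psi W) (Conc.diff_mem W))
    refine ⟨(Conc.datA W).Comp, inferInstance, inferInstance, inferInstance, sGen W, w,
      ⟨norm_formula W, span_dense W⟩, ?_, Conc.jacobsonA W, ?_,
      fun hH => hU (unital_of_hp hH), hU⟩
    · filter_upwards [hvh] with m hm n hn
      exact (h8 n).trans (hm n hn)
    · intro D hD
      have hD0 : D = 0 := Conc.wa_aux W h4 D hD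
      refine ⟨0, fun a x => ?_⟩
      rw [hD0]
      simp [val]
  · intro A U _ _ _ _ _ _ ι hι
    obtain ⟨hn, hsp⟩ := hι
    refine ⟨?_, ?_, ?_⟩
    · intro hP hWA B _ _ _ _ _ φ ψ hφ hψ hd
      obtain ⟨G, k, hG, hk⟩ := hP
      exact adj_source ι hn hsp (fun φ ψ hφ hψ h =>
        unital_case (wa_adj ι hn hsp (derivation_zero hWA)) G hG k hk φ ψ hφ hψ h)
        φ ψ hφ hψ hd
    · intro hA B _ _ _ _ _ φ ψ hφ hψ hd
      exact adj_mp ι hn hsp (fun φ ψ => hA B φ ψ) φ ψ hφ hψ hd
    · intro hU B _ _ _ _ _ φ ψ hφ hψ hd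
      exact adj_source ι hn hsp (fun φ ψ hφ hψ h =>
        hU (Un B) φ ψ hφ hψ (fun a => inRadical_of_mem (h a))) φ ψ hφ hψ hd
  · intro A _ _ _
    have hlift : ∀ (B : Type) [NonUnitalNormedCommRing B] [NormedSpace ℂ B]
        [IsScalarTower ℂ B B] [SMulCommClass ℂ B B] [CompleteSpace B] (φ ψ : A →ₙₐ[ℂ] B),
        Continuous φ → Continuous ψ → (∀ a : A, InRadical (φ a - ψ a)) →
        (∀ φ ψ : A →ₙₐ[ℂ] Un B, Continuous φ → Continuous ψ →
          (∀ a, φ a - ψ a ∈ Ring.jacobson (Un B)) → φ = ψ) → φ = ψ := by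
      intro B _ _ _ _ _ φ ψ hφ hψ hd hU
      have key := hU ((inc : B →ₙₐ[ℂ] Un B).comp φ)
        ((inc : B →ₙₐ[ℂ] Un B).comp ψ) (continuous_inc.comp hφ) (continuous_inc.comp hψ)
        (fun a => by
          have h1 := inc_mem_jacobson (hd a)
          rw [map_sub] at h1
          exact h1)
      apply NonUnitalAlgHom.ext
      intro a
      apply inc_injective
      exact congrArg (fun F : A →ₙₐ[ℂ] Un B => F a) key
    refine ⟨⟨?_, ?_⟩, fun hsep => ⟨?_, ?_⟩⟩
    · intro hH L hL a x y
      exact sub_eq_zero.mpr (critG_hard (unital_of_hp hH) L hL a x y)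
    · intro hL B _ _ _ _ _ φ ψ hφ hψ hd
      exact hlift B φ ψ hφ hψ hd (fun φ ψ hφ hψ h =>
        critG_easy (fun L hQ a x y => sub_eq_zero.mp (hL L hQ a x y)) φ ψ hφ hψ h)
    · intro hH L hL a x y
      exact sub_eq_zero.mpr (crit_hard (unital_of_hp hH) L hL a x y)
    · intro hL B _ _ _ _ _ φ ψ hφ hψ hd
      exact hlift B φ ψ hφ hψ hd (fun φ ψ hφ hψ h =>
        crit_easy (fun L hQ a x y => sub_eq_zero.mp (hL L hQ a x y)) φ ψ hφ hψ h)

end Pool.Agent.Results.MP_7549e3_an.CriterionAndThreshold
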