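import Mathlib
import Pool.Agent.H52.BeurlingAlg

/-!
# A semisimple weakly amenable commutative Banach algebra without the homomorphism property

The algebra `A` is a Beurling algebra `ℓ¹(ℤ, w)`, where the submultiplicative weight `w` satisfies
`liminf w(n) w(-n) / n = 0` (so that `A` is weakly amenable), while there is a non-constant
function `Ψ` on the integers with `|Δ^k Ψ(n)| ≤ κ w(n) / k!` for all `n` and `k`. The function
`Ψ` shows that the algebra generated by an element `u` subject to `‖u^n (u-1)^k‖ ≤ w(n) / k!` is
not one-dimensional; in that algebra `u - 1` is quasinilpotent.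
-/

namespace Pool.Agent.Results.MP_7549e3_an.SemisimpleCounterexample

open Pool.Agent.H52

section defs

variable {A : Type} [NormedCommRing A] [NormedAlgebra ℂ A]

/-- The value `D(a)(x)` of the functional `D(a)` at `x`, for `D : A → A*` bounded linear. -/
noncomputable def val (D : A →L[ℂ] (A →L[ℂ] ℂ)) (a x : A) : ℂ := D a x

/-- The bounded linear map `D : A → A*` is a derivation: `D(ab) = a·D(b) + D(a)·b`, with the dual
module actions `(a·f)(x) = f(xa)` and `(f·a)(x) = f(ax)`. -/
def IsDerivation (D : A →L[ℂ] (A →L[ℂ] ℂ)) : Prop :=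
  ∀ a b x : A, val D (a * b) x = val D b (x * a) + val D a (b * x)

/-- `D` is inner: `D(a) = a·f - f·a` for some `f` in the dual of `A`. -/
def IsInner (D : A →L[ℂ] (A →L[ℂ] ℂ)) : Prop :=
  ∃ f : A →L[ℂ] ℂ, ∀ a x : A, val D a x = f (x * a) - f (a * x)

end defs

/-- `A` is weakly amenable: every bounded derivation `A → A*` is inner. -/
def WeaklyAmenable (A : Type) [NormedCommRing A] [NormedAlgebra ℂ A] : Prop :=
  ∀ D : A →L[ℂ] (A →L[ℂ] ℂ), IsDerivation D → IsInner D

/-- The homomorphism property of a unital commutative Banach algebra `A`, tested on unital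
commutative Banach algebras `B` and continuous unital homomorphisms only: if the difference of
`φ, ψ : A → B` maps `A` into the Jacobson radical of `B`, then `φ = ψ`. -/
def HomomorphismProperty (A : Type) [NormedCommRing A] [NormedAlgebra ℂ A] : Prop :=
  ∀ (B : Type) [NormedCommRing B] [NormedAlgebra ℂ B] [CompleteSpace B] (φ ψ : A →ₐ[ℂ] B),
    Continuous φ → Continuous ψ → (∀ a : A, φ a - ψ a ∈ Ring.jacobson B) → φ = ψ

/-- There is a unital semisimple weakly amenable commutative complex Banach algebra without the
homomorphism property, even for unital homomorphisms into unital algebras. -/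
theorem result :
    ∃ (A : Type) (_ : NormedCommRing A) (_ : NormedAlgebra ℂ A) (_ : CompleteSpace A)
      (_ : NormOneClass A),
      WeaklyAmenable A ∧ Ring.jacobson A = ⊥ ∧ ¬ HomomorphismProperty A := by
  obtain ⟨w, Ψ, κ, h1, h2, h3, h4, h5, h6, h7⟩ := BW.exists_weight
  let W : Conc.Wg := ⟨w, h1, h2, h3⟩
  refine ⟨(Conc.datA W).Comp, inferInstance, inferInstance, inferInstance, ⟨Conc.norm_oneA W⟩,
    ?_, Conc.jacobsonA W, ?_⟩
  · intro D hD
    have hD0 : D = 0 := Conc.wa_aux W h4 D hD
    refine ⟨0, fun a x => ?_⟩
    rw [hD0]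
    simp [val]
  · intro h
    exact Conc.phi_ne_psi W h5 h6 h7 (h (Conc.datB W).Comp (Conc.phi W) (Conc.psi W)
      (Conc.continuous_phi W) (Conc.continuous_psi W) (Conc.diff_mem W))

end Pool.Agent.Results.MP_7549e3_an.SemisimpleCounterexample
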